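import Pool.Agent.Lib.lead.CXGraphRed

set_option autoImplicit false

namespace Pool.Agent.H.MP_7285af_lc
open Pool.Agent.Lib.CX

/-- a bounded bitolerance representation of the digraph `a` -/
def Rep (a : Gr) (L R p q : Fin a.n → ℝ) : Prop :=
  (∀ v, L v ≤ p v ∧ p v ≤ R v ∧ L v ≤ q v ∧ q v ≤ R v) ∧ ∀ x y, a.arc x y ↔ L x ≤ q y ∧ p y ≤ R x

/-- class (3ai) -/
def C3ai (a : Gr) : Prop :=
  ∃ L R p q, Rep a L R p q ∧ (∀ v, p v = q v) ∧ ∀ v, p v - L v = R v - q v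

/-- class (1ci) -/
def C1ci (a : Gr) : Prop :=
  ∃ L R p q, Rep a L R p q ∧ (∀ v w, R v - L v = R w - L w) ∧ ∀ v, p v - L v = R v - q v

abbrev G8 := (ℕ × ℕ) × (ℕ × ℕ) × (ℕ × ℕ) × (ℕ × ℕ)
instance : DecidableEq G8 := inferInstance
abbrev Vx := ℕ × G8
instance : DecidableEq Vx := inferInstance

def vV (s k : ℕ) : Vx := (0, (s, k), (0, 0), (0, 0), (0, 0))
def vW (s k : ℕ) : Vx := (1, (s, k), (0, 0), (0, 0), (0, 0))

def key (x : Vx) : ℕ :=
  if x.1 = 0 then 4 * x.2.1.1 + x.2.1.2 + 1 else if x.1 = 1 then 4 * x.2.1.1 + 4 else 4 * x.2.1.2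
def lo (x : Vx) : ℕ :=
  if x.1 = 0 then 4 * x.2.1.1 + x.2.1.2 + 1 else if x.1 = 1 then 4 * x.2.1.1 + 1 else
  if x.1 = 2 then 4 * x.2.1.1 + x.2.2.2.1.1 + 1 else if x.1 = 3 then 4 * x.2.1.1 + x.2.2.2.2.1 + 2 else
  4 * x.2.1.1 + x.2.2.1.1 + 2
def hi (x : Vx) : ℕ :=
  if x.1 = 0 then 4 * x.2.1.1 + x.2.1.2 + 1 else if x.1 = 1 then 4 * x.2.1.1 + x.2.1.2 + 5 else
  if x.1 = 2 then 4 * x.2.1.2 + x.2.2.2.1.2 else if x.1 = 3 then 4 * x.2.1.2 + x.2.2.2.2.2 + 1 else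
  4 * x.2.1.2 + x.2.2.1.2 + 1

def arc (x y : Vx) : Prop :=
  (x.1 = 5 ∧ (y = (2, x.2) ∨ y = (3, x.2) ∨ y = (5, x.2))) ∨ (x.1 ≠ 5 ∧ lo x ≤ key y ∧ key y ≤ hi x)

instance (x y : Vx) : Decidable (arc x y) := by unfold arc; infer_instance

def vs (N : ℕ) (G : List G8) : List Vx :=
  ((List.range N).flatMap fun s => [vV s 0, vV s 1, vV s 2]) ++
    ((List.range (N - 1)).flatMap fun s => [vW s 0, vW s 1, vW s 2]) ++
    G.flatMap fun g => [(2, g), (3, g), (4, g), (5, g)]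

theorem mem_vs {N : ℕ} {G : List G8} {x : Vx} : x ∈ vs N G ↔ (∃ s k, s < N ∧ k < 3 ∧ x = vV s k) ∨
    (∃ s k, s + 1 < N ∧ k < 3 ∧ x = vW s k) ∨ ∃ g ∈ G, x = (2, g) ∨ x = (3, g) ∨ x = (4, g) ∨ x = (5, g) := by
  simp only [vs, List.mem_append, List.mem_flatMap, List.mem_range, List.mem_cons, List.not_mem_nil, or_false,
    or_assoc]
  refine or_congr ⟨?_, ?_⟩ (or_congr ⟨?_, ?_⟩ Iff.rfl)
  · rintro ⟨s, hs, h | h | h⟩ <;> exact ⟨s, _, hs, by omega, h⟩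
  · rintro ⟨s, k, hs, hk, h⟩
    refine ⟨s, hs, ?_⟩
    interval_cases k <;> simp [h]
  · rintro ⟨s, hs, h | h | h⟩ <;> exact ⟨s, _, by omega, by omega, h⟩
  · rintro ⟨s, k, hs, hk, h⟩
    refine ⟨s, by omega, ?_⟩
    interval_cases k <;> simp [h]

def Central (l : List Vx) : Prop :=
  ∃ p A B : Vx → ℝ, (∀ x, A x + B x = 2 * p x) ∧ ∀ x ∈ l, ∀ y ∈ l, arc x y ↔ A x ≤ p y ∧ p y ≤ B x

def WF (N : ℕ) (g : G8) : Prop :=
  1 ≤ g.1.1 ∧ g.1.1 < g.1.2 ∧ g.1.2 < N ∧ g.2.1.1 ≤ 1 ∧ g.2.1.2 ≤ 1 ∧ g.2.2.1.1 ≤ g.2.1.1 + 1 ∧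
    g.2.2.1.2 ≤ g.2.1.2 + 1 ∧ g.2.1.1 ≤ g.2.2.2.1 ∧ g.2.1.2 ≤ g.2.2.2.2 ∧ g.2.2.2.1 ≤ 2 ∧ g.2.2.2.2 ≤ 2

def Sat {K : Type} [Add K] [LT K] (F : ℕ → ℕ → K) (g : G8) : Prop :=
  F g.1.1 g.2.1.1 + F g.1.2 g.2.1.2 < F g.1.1 g.2.2.1.1 + F g.1.2 g.2.2.1.2 ∨
    F g.1.1 g.2.2.2.1 + F g.1.2 g.2.2.2.2 < F g.1.1 (g.2.1.1 + 1) + F g.1.2 (g.2.1.2 + 1)

theorem arcW (s k t j : ℕ) : arc (vW s k) (vV t j) ↔ 4 * s ≤ 4 * t + j ∧ 4 * t + j ≤ 4 * s + k + 4 := by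
  simp only [arc, vW, vV, lo, hi, key]; simp

theorem core {N : ℕ} {G : List G8} (hN : 3 ≤ N) (hG : ∀ g ∈ G, WF N g) (p A B : Vx → ℝ)
    (hm : ∀ x, A x + B x = 2 * p x) (h : ∀ x ∈ vs N G, ∀ y ∈ vs N G, arc x y ↔ A x ≤ p y ∧ p y ≤ B x)
    (h0 : p (vV 0 0) < p (vV 1 0)) : ∀ g ∈ G, Sat (fun s k => p (vV s k)) g := by
  have mV : ∀ s k, s < N → k < 3 → vV s k ∈ vs N G := fun s k a b => mem_vs.2 (.inl ⟨s, k, a, b, rfl⟩)
  have hW : ∀ s k t j, s + 1 < N → k < 3 → t < N → j < 3 →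
      ((4 * s ≤ 4 * t + j ∧ 4 * t + j ≤ 4 * s + k + 4) ↔ A (vW s k) ≤ p (vV t j) ∧ p (vV t j) ≤ B (vW s k)) :=
    fun s k t j a b c d => (arcW s k t j).symm.trans (h _ (mem_vs.2 (.inr (.inl ⟨s, k, a, b, rfl⟩))) _ (mV t j c d))
  have step : ∀ s, 1 ≤ s → s + 1 < N → p (vV 0 0) < p (vV s 0) → ∀ t j, (t = s ∨ t = s + 1) → j < 3 →
      p (vV 0 0) < p (vV t j) := fun s a b c t j d e => by
    have h1 := (hW s 2 s 0 b (by omega) (by omega) (by omega)).1 (by omega)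
    have h2 := (hW s 2 t j b (by omega) (by omega) e).1 (by omega)
    have h3 := (hW s 2 0 0 b (by omega) (by omega) (by omega)).not.1 (by omega)
    by_contra hc
    exact h3 ⟨by linarith [h2.1, not_lt.1 hc], by linarith [h1.2]⟩
  have o1 : ∀ s, s + 1 < N → p (vV 0 0) < p (vV (s + 1) 0) := fun s => by
    induction s with
    | zero => exact fun _ => h0
    | succ s ih => exact fun a => step (s + 1) (by omega) a (ih (by omega)) _ 0 (.inr rfl) (by omega)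
  have o2 : ∀ t j, 1 ≤ t → t < N → j < 3 → p (vV 0 0) < p (vV t j) := fun t j a b c => by
    rcases Nat.lt_or_ge 1 t with d | d
    · obtain ⟨s, rfl⟩ : ∃ s, t = s + 2 := ⟨t - 2, by omega⟩
      exact step (s + 1) (by omega) b (o1 s (by omega)) _ j (.inr rfl) c
    · exact step 1 le_rfl (by omega) h0 t j (.inl (by omega)) c
  have o3 : ∀ s k t j, k < 3 → j < 3 → t < N → 4 * (s + 1) + k < 4 * t + j → p (vV (s + 1) k) < p (vV t j) :=
    fun s => by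
      induction s with
      | zero =>
        intro k t j a b c d
        have h1 := (hW 0 k 0 0 (by omega) a (by omega) (by omega)).1 (by omega)
        have h2 := (hW 0 k 1 k (by omega) a (by omega) a).1 (by omega)
        have h3 := (hW 0 k t j (by omega) a c b).not.1 (by omega)
        have h4 := o2 t j (by omega) c b
        by_contra hc
        exact h3 ⟨by linarith [h1.1], by linarith [h2.2, not_lt.1 hc]⟩
      | succ s ih =>
        intro k t j a b c d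
        have h1 := (hW (s + 1) k (s + 1) 0 (by omega) a (by omega) (by omega)).1 (by omega)
        have h2 := (hW (s + 1) k (s + 1 + 1) k (by omega) a (by omega) a).1 (by omega)
        have h3 := (hW (s + 1) k t j (by omega) a c b).not.1 (by omega)
        have h4 := ih 0 t j (by omega) b c (by omega)
        by_contra hc
        exact h3 ⟨by linarith [h1.1], by linarith [h2.2, not_lt.1 hc]⟩
  have o4 : ∀ s k t j, 1 ≤ s → k < 3 → j < 3 → t < N → 4 * s + k < 4 * t + j → p (vV s k) < p (vV t j) :=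
    fun s k t j a b c d e => by
      obtain ⟨s, rfl⟩ : ∃ u, s = u + 1 := ⟨s - 1, by omega⟩
      exact o3 s k t j b c d e
  intro g hg
  obtain ⟨⟨L, R⟩, ⟨i, j⟩, ⟨a, b⟩, ⟨c, d⟩⟩ := g
  obtain ⟨w1, w2, w3, w4, w5, w6, w7, w8, w9, w10, w11⟩ := hG _ hg
  simp only at w1 w2 w3 w4 w5 w6 w7 w8 w9 w10 w11
  set g : G8 := ((L, R), (i, j), (a, b), (c, d)) with hgd
  have m2 : ((2, g) : Vx) ∈ vs N G := mem_vs.2 (.inr (.inr ⟨g, hg, by simp⟩))
  have m3 : ((3, g) : Vx) ∈ vs N G := mem_vs.2 (.inr (.inr ⟨g, hg, by simp⟩))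
  have m4 : ((4, g) : Vx) ∈ vs N G := mem_vs.2 (.inr (.inr ⟨g, hg, by simp⟩))
  have m5 : ((5, g) : Vx) ∈ vs N G := mem_vs.2 (.inr (.inr ⟨g, hg, by simp⟩))
  have a1 := (h _ m2 _ (mV L a (by omega) (by omega))).1 (by simp [arc, lo, hi, key, vV, hgd]; omega)
  have a2 := (h _ m2 _ (mV R b (by omega) (by omega))).not.1 (by simp [arc, lo, hi, key, vV, hgd])
  have a3 := (h _ m3 _ (mV R d (by omega) (by omega))).1 (by simp [arc, lo, hi, key, vV, hgd]; omega)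
  have a4 := (h _ m3 _ (mV L c (by omega) (by omega))).not.1 (by simp [arc, lo, hi, key, vV, hgd])
  have a5 := (h _ m4 _ (mV L (i + 1) (by omega) (by omega))).1 (by simp [arc, lo, hi, key, vV, hgd]; omega)
  have a6 := (h _ m4 _ (mV R j (by omega) (by omega))).1 (by simp [arc, lo, hi, key, vV, hgd]; omega)
  have a7 := (h _ m4 _ (mV L i (by omega) (by omega))).not.1 (by simp [arc, lo, hi, key, vV, hgd])
  have a8 := (h _ m4 _ (mV R (j + 1) (by omega) (by omega))).not.1 (by simp [arc, lo, hi, key, vV, hgd])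
  have b1 := (h _ m5 _ m2).1 (by simp [arc])
  have b2 := (h _ m5 _ m3).1 (by simp [arc])
  have b3 := (h _ m5 _ m4).not.1 (by simp [arc])
  have c1 := o4 L a R b w1 (by omega) (by omega) w3 (by omega)
  have c2 := o4 L c R d w1 (by omega) (by omega) w3 (by omega)
  have c3 := o4 L i R j w1 (by omega) (by omega) w3 (by omega)
  have c4 := o4 L (i + 1) R (j + 1) w1 (by omega) (by omega) w3 (by omega)
  have e2 := hm (2, g)
  have e3 := hm (3, g)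
  have e4 := hm (4, g)
  have d1 : B (2, g) < p (vV R b) := by
    by_contra hc; exact a2 ⟨by linarith [a1.1], not_lt.1 hc⟩
  have d2 : p (vV L c) < A (3, g) := by
    by_contra hc; exact a4 ⟨not_lt.1 hc, by linarith [a3.2]⟩
  have d3 : p (vV L i) < A (4, g) := by
    by_contra hc; exact a7 ⟨not_lt.1 hc, by linarith [a6.2]⟩
  have d4 : B (4, g) < p (vV R (j + 1)) := by
    by_contra hc; exact a8 ⟨by linarith [a5.1], not_lt.1 hc⟩
  simp only [Sat, hgd]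
  rcases not_and_or.1 b3 with hc | hc
  · left; linarith [not_le.1 hc, b1.1, a1.1, a6.2]
  · right; linarith [not_le.1 hc, b2.2, a3.2, a5.1]

theorem back {N : ℕ} {G : List G8} (hN : 3 ≤ N) (hG : ∀ g ∈ G, WF N g) (h : Central (vs N G)) :
    ∃ F : ℕ → ℕ → ℝ, ∀ g ∈ G, Sat F g := by
  obtain ⟨p, A, B, hm, h⟩ := h
  have m0 : vV 0 0 ∈ vs N G := mem_vs.2 (.inl ⟨0, 0, by omega, by omega, rfl⟩)
  have m1 : vV 1 0 ∈ vs N G := mem_vs.2 (.inl ⟨1, 0, by omega, by omega, rfl⟩)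
  have a1 := (h _ m0 _ m0).1 (by simp [arc, lo, hi, key, vV])
  have a2 := (h _ m0 _ m1).not.1 (by simp [arc, lo, hi, key, vV])
  rcases lt_trichotomy (p (vV 0 0)) (p (vV 1 0)) with c | c | c
  · exact ⟨_, core hN hG p A B hm h c⟩
  · exact absurd (c ▸ a1) a2
  · refine ⟨_, core hN hG (fun x => -p x) (fun x => -B x) (fun x => -A x) (fun x => by linarith [hm x])
      (fun x hx y hy => (h x hx y hy).trans ?_) (by simpa using c)⟩
    simp [and_comm]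

end Pool.Agent.H.MP_7285af_lc
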