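import Pool.Agent.H.MP_7285af_lc.A

set_option autoImplicit false

namespace Pool.Agent.H.MP_7285af_lc
open Pool.Agent.Lib.CX

def X (s : ℕ) : ℤ := 2 ^ s

theorem X_pos (s : ℕ) : 1 ≤ X s := one_le_pow₀ (by norm_num)
theorem X_succ (s : ℕ) : X (s + 1) = 2 * X s := by simp [X, pow_succ, mul_comm]
theorem X_lt {s t : ℕ} (h : s < t) : 2 * X s ≤ X t := by
  rw [← X_succ]; exact pow_le_pow_right₀ (by norm_num) h
theorem X_tri (s t : ℕ) : (s < t ∧ 2 * X s ≤ X t) ∨ (s = t ∧ X s = X t) ∨ (t < s ∧ 2 * X t ≤ X s) := by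
  rcases lt_trichotomy s t with h | h | h
  · exact .inl ⟨h, X_lt h⟩
  · exact .inr (.inl ⟨h, h ▸ rfl⟩)
  · exact .inr (.inr ⟨h, X_lt h⟩)

variable (F : ℕ → ℕ → ℤ)

def pv (s k : ℕ) : ℤ := 8000 * X s + 8 * F s k
def S1 (g : G8) : ℤ := F g.1.1 g.2.1.1 + F g.1.2 g.2.1.2
def S2 (g : G8) : ℤ := F g.1.1 g.2.2.1.1 + F g.1.2 g.2.2.1.2
def S3 (g : G8) : ℤ := F g.1.1 g.2.2.2.1 + F g.1.2 g.2.2.2.2
def S4 (g : G8) : ℤ := F g.1.1 (g.2.1.1 + 1) + F g.1.2 (g.2.1.2 + 1)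
def C (g : G8) : ℤ := 4000 * (X g.1.1 + X g.1.2)

def pp (x : Vx) : ℤ :=
  if x.1 = 0 then pv F x.2.1.1 x.2.1.2 else if x.1 = 1 then 12000 * X x.2.1.1 - 750 + 4 * F (x.2.1.1 + 1) x.2.1.2 else
  if x.1 = 2 then C x.2 + 4 * S2 F x.2 - 2 else if x.1 = 3 then C x.2 + 4 * S3 F x.2 + 2 else
  if x.1 = 4 then (if S1 F x.2 < S2 F x.2 then C x.2 + 4 * S1 F x.2 + 1 else C x.2 + 4 * S4 F x.2 - 1) else
  C x.2 + 2 * (S2 F x.2 + S3 F x.2)
def AA (x : Vx) : ℤ :=
  if x.1 = 0 then pv F x.2.1.1 x.2.1.2 else if x.1 = 1 then 8000 * X x.2.1.1 - 1500 else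
  if x.1 = 2 then pv F x.2.1.1 x.2.2.2.1.1 else if x.1 = 3 then pv F x.2.1.1 x.2.2.2.2.1 + 4 else
  if x.1 = 4 then (if S1 F x.2 < S2 F x.2 then pv F x.2.1.1 x.2.2.1.1 + 2 else pv F x.2.1.1 (x.2.2.1.1 + 1)) else
  min (pp F (2, x.2)) (pp F (3, x.2))
def BB (x : Vx) : ℤ :=
  if x.1 = 0 then pv F x.2.1.1 x.2.1.2 else if x.1 = 1 then pv F (x.2.1.1 + 1) x.2.1.2 else
  if x.1 = 2 then pv F x.2.1.2 x.2.2.2.1.2 - 4 else if x.1 = 3 then pv F x.2.1.2 x.2.2.2.2.2 else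
  if x.1 = 4 then (if S1 F x.2 < S2 F x.2 then pv F x.2.1.2 x.2.2.1.2 else pv F x.2.1.2 (x.2.2.1.2 + 1) - 2) else
  max (pp F (2, x.2)) (pp F (3, x.2))

theorem mid (x : Vx) : AA F x + BB F x = 2 * pp F x := by
  have := X_succ x.2.1.1
  unfold AA BB
  split_ifs with h0 h1 h2 h3 h4 h5 <;> simp only [pp, *, if_true, if_false, pv, S1, S2, S3, S4, C] <;>
    (try simp only [S1, S2] at h5) <;> (try simp only [h5, if_true, if_false]) <;> (try norm_num) <;> omega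

def OK : Prop := ∀ s, 0 ≤ F s 0 ∧ F s 0 < F s 1 ∧ F s 1 < F s 2 ∧ F s 2 ≤ 60

variable {F}

theorem OK.bd (h : OK F) (s k : ℕ) (hk : k < 3) : 0 ≤ F s k ∧ F s k ≤ 60 := by
  have := h s; interval_cases k <;> omega

theorem OK.tri (h : OK F) (s k j : ℕ) (hk : k < 3) (hj : j < 3) :
    (k < j ∧ F s k < F s j) ∨ (k = j ∧ F s k = F s j) ∨ (j < k ∧ F s j < F s k) := by
  have := h s; interval_cases k <;> interval_cases j <;> omega

theorem gbd (h : OK F) {N : ℕ} {g : G8} (w : WF N g) {c : ℕ} (hc : 2 ≤ c) :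
    C g - 2 ≤ pp F (c, g) ∧ pp F (c, g) ≤ C g + 500 := by
  obtain ⟨w1, w2, w3, w4, w5, w6, w7, w8, w9, w10, w11⟩ := w
  have a1 := h.bd g.1.1 g.2.1.1 (by omega)
  have a2 := h.bd g.1.2 g.2.1.2 (by omega)
  have a3 := h.bd g.1.1 g.2.2.1.1 (by omega)
  have a4 := h.bd g.1.2 g.2.2.1.2 (by omega)
  have a5 := h.bd g.1.1 g.2.2.2.1 (by omega)
  have a6 := h.bd g.1.2 g.2.2.2.2 (by omega)
  have a7 := h.bd g.1.1 (g.2.1.1 + 1) (by omega)
  have a8 := h.bd g.1.2 (g.2.1.2 + 1) (by omega)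
  simp only [pp, S1, S2, S3, S4]
  split_ifs <;> omega

theorem gap (h : OK F) {N : ℕ} {G : List G8} (hG : ∀ g ∈ G, WF N g) {y : Vx} (hy : y ∈ vs N G) :
    (∃ t j, j < 3 ∧ key y = 4 * t + j + 1 ∧ pp F y = pv F t j) ∨
      ∃ R, key y = 4 * R ∧ 4000 * X R + 600 < pp F y ∧ pp F y < 8000 * X R - 1500 := by
  rcases mem_vs.1 hy with ⟨s, k, a, b, rfl⟩ | ⟨s, k, a, b, rfl⟩ | ⟨g, hg, e⟩
  · exact .inl ⟨s, k, b, by simp [key, vV], by simp [pp, vV]⟩
  · refine .inr ⟨s + 1, by simp [key, vW]; omega, ?_⟩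
    have := X_succ s
    have := X_pos s
    have := h.bd (s + 1) k b
    simp only [pp, vW]; norm_num; omega
  · have w := hG g hg
    have b1 := X_lt w.2.1
    have b2 := X_pos g.1.1
    refine .inr ⟨g.1.2, ?_⟩
    rcases e with rfl | rfl | rfl | rfl
    all_goals
      refine ⟨by simp [key], ?_⟩
      first
        | (have := gbd h w (c := 2) le_rfl; simp only [C] at this; omega)
        | (have := gbd h w (c := 3) (by omega); simp only [C] at this; omega)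
        | (have := gbd h w (c := 4) (by omega); simp only [C] at this; omega)
        | (have := gbd h w (c := 5) (by omega); simp only [C] at this; omega)

theorem thr (h : OK F) {N : ℕ} {G : List G8} (hG : ∀ g ∈ G, WF N g) {y : Vx} (hy : y ∈ vs N G) (s k : ℕ)
    (hk : k < 3) : (key y ≤ 4 * s + k + 1 → pp F y ≤ pv F s k) ∧ (4 * s + k + 1 < key y → pv F s k + 8 ≤ pp F y) ∧
      (4 * s + k + 1 ≤ key y → pv F s k ≤ pp F y) ∧ (key y < 4 * s + k + 1 → pp F y + 8 ≤ pv F s k) ∧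
      (key y < 4 * s + 1 → pp F y < 8000 * X s - 1500) := by
  have a := h.bd s k hk
  have b := X_pos s
  rcases gap h hG hy with ⟨t, j, hj, e1, e2⟩ | ⟨R, e1, e2, e3⟩
  · have c := h.bd t j hj
    have d := X_pos t
    rw [e1, e2]; simp only [pv]
    rcases X_tri s t with e | ⟨rfl, -⟩ | e
    · omega
    · have := h.tri s k j hk hj; omega
    · omega
  · have := X_tri s R
    have d := X_pos R
    simp only [pv]; omega

theorem forth (h : OK F) {N : ℕ} {G : List G8} (hG : ∀ g ∈ G, WF N g) (hu : ∀ g ∈ G, ∀ g' ∈ G, g.1 = g'.1 → g = g')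
    (hs : ∀ g ∈ G, Sat F g) : ∀ x ∈ vs N G, ∀ y ∈ vs N G, arc x y ↔ AA F x ≤ pp F y ∧ pp F y ≤ BB F x := by
  intro x hx y hy
  have T := thr h hG hy
  rcases mem_vs.1 hx with ⟨s, k, a, b, rfl⟩ | ⟨s, k, a, b, rfl⟩ | ⟨g, hg, e⟩
  · have := T s k b
    simp only [arc, AA, BB, lo, hi, vV]; norm_num; omega
  · have := T (s + 1) k b
    have := T s 0 (by omega)
    have := h.bd s 0 (by omega)
    simp only [pv] at *
    simp only [arc, AA, BB, lo, hi, vW, pv]; norm_num; omega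
  have w := hG g hg
  obtain ⟨w1, w2, w3, w4, w5, w6, w7, w8, w9, w10, w11⟩ := hG g hg
  rcases e with rfl | rfl | rfl | rfl
  · have := T g.1.1 g.2.2.1.1 (by omega)
    have := T g.1.2 g.2.2.1.2 (by omega)
    simp only [arc, AA, BB, lo, hi]; norm_num; omega
  · have := T g.1.1 g.2.2.2.1 (by omega)
    have := T g.1.2 g.2.2.2.2 (by omega)
    simp only [arc, AA, BB, lo, hi]; norm_num; omega
  · have := T g.1.1 g.2.1.1 (by omega)
    have := T g.1.2 g.2.1.2 (by omega)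
    have := T g.1.1 (g.2.1.1 + 1) (by omega)
    have := T g.1.2 (g.2.1.2 + 1) (by omega)
    simp only [arc, AA, BB, lo, hi]; norm_num; split_ifs <;> omega
  have e : arc (5, g) y ↔ y = (2, g) ∨ y = (3, g) ∨ y = (5, g) := by simp [arc]
  have e1 : AA F (5, g) = min (pp F (2, g)) (pp F (3, g)) := by simp [AA]
  have e2 : BB F (5, g) = max (pp F (2, g)) (pp F (3, g)) := by simp [BB]
  rw [e, e1, e2]
  constructor
  · rintro (rfl | rfl | rfl)
    · omega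
    · omega
    · simp only [pp]; norm_num; omega
  intro hc
  have g2 := gbd h w (c := 2) le_rfl
  have g3 := gbd h w (c := 3) (by omega)
  have b1 := X_lt w2
  have b2 := X_pos g.1.1
  simp only [C] at g2 g3
  rcases mem_vs.1 hy with ⟨s, k, a, b, rfl⟩ | ⟨s, k, a, b, rfl⟩ | ⟨g', hg', e'⟩
  · exfalso
    have := h.bd s k b
    have := X_tri s g.1.2
    have : pp F (vV s k) = 8000 * X s + 8 * F s k := by simp [pp, vV, pv]
    omega
  · exfalso
    have := h.bd (s + 1) k b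
    have := X_tri (s + 1) g.1.2
    have := X_tri (g.1.1 + 1) g.1.2
    have := X_succ s
    have := X_succ g.1.1
    have : pp F (vW s k) = 12000 * X s - 750 + 4 * F (s + 1) k := by simp [pp, vW]
    omega
  have w' := hG g' hg'
  have b3 := X_lt w'.2.1
  have b4 := X_pos g'.1.1
  have k : C g' - 2 ≤ pp F y ∧ pp F y ≤ C g' + 500 := by
    rcases e' with rfl | rfl | rfl | rfl <;> exact gbd h w' (by omega)
  simp only [C] at k
  have t1 := X_tri g.1.1 g'.1.1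
  have t2 := X_tri g.1.2 g'.1.2
  obtain rfl : g = g' := hu g hg g' hg' (Prod.ext (by omega) (by omega))
  rcases e' with rfl | rfl | rfl | rfl
  · simp
  · simp
  · exfalso
    have q := hs g hg
    have a1 := h.tri g.1.1 g.2.1.1 g.2.2.2.1 (by omega) (by omega)
    have a2 := h.tri g.1.2 g.2.1.2 g.2.2.2.2 (by omega) (by omega)
    have a3 := h.tri g.1.1 g.2.2.1.1 (g.2.1.1 + 1) (by omega) (by omega)
    have a4 := h.tri g.1.2 g.2.2.1.2 (g.2.1.2 + 1) (by omega) (by omega)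
    simp only [Sat] at q
    simp only [pp, S1, S2, S3, S4] at hc
    norm_num at hc
    split_ifs at hc <;> omega
  · simp

theorem central (h : OK F) {N : ℕ} {G : List G8} (hG : ∀ g ∈ G, WF N g)
    (hu : ∀ g ∈ G, ∀ g' ∈ G, g.1 = g'.1 → g = g') (hs : ∀ g ∈ G, Sat F g) : Central (vs N G) :=
  ⟨fun x => pp F x, fun x => AA F x, fun x => BB F x, fun x => by beta_reduce; exact_mod_cast mid F x, fun x hx y hy =>
    (forth h hG hu hs x hx y hy).trans (by simp only [Int.cast_le])⟩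

end Pool.Agent.H.MP_7285af_lc
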