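import Pool.Agent.H.MP_7285af_lc.B

set_option autoImplicit false

namespace Pool.Agent.H.MP_7285af_lc
open Pool.Agent.Lib.CX

abbrev Q4 := (ℕ × ℕ) × (ℕ × ℕ)

def gad (n t : ℕ) (q : Q4) : List G8 :=
  [((n + 2 * t, n + 2 * t + 1), (0, 1), (1, 0), (2, 1)), ((q.1.2, n + 2 * t), (0, 1), (1, 0), (1, 2)),
    ((q.2.1, n + 2 * t), (1, 1), (0, 2), (2, 2)), ((q.1.1, n + 2 * t + 1), (1, 0), (0, 1), (2, 1)),
    ((q.2.2, n + 2 * t + 1), (0, 0), (0, 0), (0, 2))]

def gads (n : ℕ) (cs : List Q4) : List G8 :=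
  (List.range cs.length).flatMap fun t => gad n t (cs.getD t ((0, 0), (0, 0)))

def QW (n : ℕ) (q : Q4) : Prop :=
  1 ≤ q.1.1 ∧ q.1.1 < n ∧ 1 ≤ q.1.2 ∧ q.1.2 < n ∧ 1 ≤ q.2.1 ∧ q.2.1 < n ∧ 1 ≤ q.2.2 ∧ q.2.2 < n ∧
    q.1.2 ≠ q.2.1 ∧ q.1.1 ≠ q.2.2

theorem mem_gads {n : ℕ} {cs : List Q4} {g : G8} :
    g ∈ gads n cs ↔ ∃ t, ∃ h : t < cs.length, g ∈ gad n t cs[t] := by
  simp only [gads, List.mem_flatMap, List.mem_range]
  refine exists_congr fun t => ⟨fun ⟨a, b⟩ => ⟨a, ?_⟩, fun ⟨a, b⟩ => ⟨a, ?_⟩⟩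
  · rwa [List.getD_eq_getElem _ _ a] at b
  · rwa [List.getD_eq_getElem _ _ a]

theorem gads_wf {n : ℕ} {cs : List Q4} (h : ∀ q ∈ cs, QW n q) : ∀ g ∈ gads n cs, WF (n + 2 * cs.length) g := by
  intro g hg
  obtain ⟨t, ht, hg⟩ := mem_gads.1 hg
  have := h _ (List.getElem_mem ht)
  simp only [QW] at this
  simp only [gad, List.mem_cons, List.not_mem_nil, or_false] at hg
  rcases hg with rfl | rfl | rfl | rfl | rfl <;> simp only [WF] <;> omega

theorem gads_uniq {n : ℕ} {cs : List Q4} (h : ∀ q ∈ cs, QW n q) :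
    ∀ g ∈ gads n cs, ∀ g' ∈ gads n cs, g.1 = g'.1 → g = g' := by
  intro g hg g' hg' e
  obtain ⟨t, ht, hg⟩ := mem_gads.1 hg
  obtain ⟨t', ht', hg'⟩ := mem_gads.1 hg'
  have e2 : t = t' := by
    simp only [gad, List.mem_cons, List.not_mem_nil, or_false] at hg hg'
    rcases hg with rfl | rfl | rfl | rfl | rfl <;> rcases hg' with rfl | rfl | rfl | rfl | rfl <;>
      simp only [Prod.mk.injEq] at e <;> omega
  subst e2
  have := h _ (List.getElem_mem ht)
  simp only [QW] at this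
  simp only [gad, List.mem_cons, List.not_mem_nil, or_false] at hg hg'
  rcases hg with rfl | rfl | rfl | rfl | rfl <;> rcases hg' with rfl | rfl | rfl | rfl | rfl <;>
    first | rfl | (simp only [Prod.mk.injEq] at e; omega)

theorem ord_back {n : ℕ} {cs : List Q4} (hn : 3 ≤ n) (h : ∀ q ∈ cs, QW n q)
    (hc : Central (vs (n + 2 * cs.length) (gads n cs))) :
    ∃ g : ℕ → ℝ, ∀ q ∈ cs, g q.1.1 < g q.1.2 ∨ g q.2.1 < g q.2.2 := by
  obtain ⟨F, hF⟩ := back (by omega) (gads_wf h) hc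
  refine ⟨fun m => F m 1 - F m 0, fun q hq => ?_⟩
  obtain ⟨t, ht, rfl⟩ := List.getElem_of_mem hq
  have k := fun g hg => hF g (mem_gads.2 ⟨t, ht, hg⟩)
  simp only [gad, List.forall_mem_cons, Sat, List.not_mem_nil, IsEmpty.forall_iff, implies_true, and_true,
    lt_self_iff_false, or_false, false_or, Nat.zero_add, Nat.reduceAdd] at k
  obtain ⟨k1, k2, k3, k4, k5⟩ := k
  rcases k1 with k1 | k1
  · left; simp only; linarith
  · right; simp only; linarith

def FF (n : ℕ) (cs : List Q4) (val : ℕ → ℤ) (s k : ℕ) : ℤ :=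
  let q := cs.getD ((s - n) / 2) ((0, 0), (0, 0))
  let a := if s < n then val s else if (s - n) % 2 = 0 then val q.1.2 - 1 else val q.1.1 + 1
  let b := if s < n then 1 else if (s - n) % 2 = 0 then val q.2.1 + 1 else val q.2.2 - 1
  if k = 0 then 0 else if k = 1 then a else a + b

theorem ord_forth {n : ℕ} {cs : List Q4} (h : ∀ q ∈ cs, QW n q) (val : ℕ → ℤ) (hv : ∀ m, 2 ≤ val m ∧ val m ≤ 26)
    (hs : ∀ q ∈ cs, val q.1.1 + 3 ≤ val q.1.2 ∨ val q.2.1 + 3 ≤ val q.2.2) :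
    Central (vs (n + 2 * cs.length) (gads n cs)) := by
  refine central (F := FF n cs val) (fun s => ?_) (gads_wf h) (gads_uniq h) fun g hg => ?_
  · simp only [FF]
    generalize cs.getD ((s - n) / 2) ((0, 0), (0, 0)) = q
    have := hv s
    have := hv q.1.1
    have := hv q.1.2
    have := hv q.2.1
    have := hv q.2.2
    norm_num
    split_ifs <;> omega
  obtain ⟨t, ht, hg⟩ := mem_gads.1 hg
  have w := h _ (List.getElem_mem ht)
  have s := hs _ (List.getElem_mem ht)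
  simp only [QW] at w
  have e1 : (n + 2 * t - n) / 2 = t := by omega
  have e2 : (n + 2 * t + 1 - n) / 2 = t := by omega
  have e3 : (n + 2 * t - n) % 2 = 0 := by omega
  have e4 : ¬ (n + 2 * t + 1 - n) % 2 = 0 := by omega
  have e5 : ¬ n + 2 * t < n := by omega
  have e6 : ¬ n + 2 * t + 1 < n := by omega
  have e7 := List.getD_eq_getElem cs ((0, 0), (0, 0)) ht
  simp only [gad, List.mem_cons, List.not_mem_nil, or_false] at hg
  rcases hg with rfl | rfl | rfl | rfl | rfl <;>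
    simp only [Sat, FF, e1, e2, e3, e4, e5, e6, e7, w, if_true, if_false] <;> norm_num <;> omega

def cl (m c : ℕ) (C : T3 ℕ) : List Q4 :=
  [((3 * m + 2 + 2 * c, C.1 + 2), (3 * m + 2 + 2 * c, C.2.1 + 2)), ((1, 3 * m + 2 + 2 * c), (1, C.2.2 + 2)),
    ((C.1 + 2, 3 * m + 3 + 2 * c), (C.2.1 + 2, 3 * m + 3 + 2 * c)), ((3 * m + 3 + 2 * c, 1), (C.2.2 + 2, 1))]

def cls (φ : List (T3 ℕ)) : List Q4 :=
  (List.range φ.length).flatMap fun c => cl φ.length c (φ.getD c (0, 0, 0))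

theorem mem_cls {φ : List (T3 ℕ)} {q : Q4} : q ∈ cls φ ↔ ∃ c, ∃ h : c < φ.length, q ∈ cl φ.length c φ[c] := by
  simp only [cls, List.mem_flatMap, List.mem_range]
  refine exists_congr fun t => ⟨fun ⟨a, b⟩ => ⟨a, ?_⟩, fun ⟨a, b⟩ => ⟨a, ?_⟩⟩
  · rwa [List.getD_eq_getElem _ _ a] at b
  · rwa [List.getD_eq_getElem _ _ a]

def VS (φ : List (T3 ℕ)) : List Vx := vs (5 * φ.length + 3 + 2 * (cls φ).length) (gads (5 * φ.length + 3) (cls φ))

def val (φ : List (T3 ℕ)) (v : ℕ → Bool) (x : ℕ) : ℤ :=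
  let C := φ.getD ((x - (3 * φ.length + 2)) / 2) (0, 0, 0)
  if x < 2 then 14 else if x < 3 * φ.length + 2 then (if v (x - 2) then 22 else 6) else
  if (x - (3 * φ.length + 2)) % 2 = 0 then (if v C.1 || v C.2.1 then 18 else 2) else
  if v C.1 && v C.2.1 then 26 else 10

theorem nae_iff (φ : List (T3 ℕ)) (h : ∀ C ∈ φ, C.dist ∧ ∀ x ∈ C.vars, x < 3 * φ.length) :
    SatR nae φ ↔ Central (VS φ) := by
  have hb : ∀ c (hc : c < φ.length), φ[c].1 < 3 * φ.length ∧ φ[c].2.1 < 3 * φ.length ∧ φ[c].2.2 < 3 * φ.length :=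
    fun c hc => by simpa [T3.vars] using (h _ (List.getElem_mem hc)).2
  have hw : ∀ q ∈ cls φ, QW (5 * φ.length + 3) q := fun q hq => by
    obtain ⟨c, hc, hq⟩ := mem_cls.1 hq
    have := hb c hc
    simp only [cl, List.mem_cons, List.not_mem_nil, or_false] at hq
    rcases hq with rfl | rfl | rfl | rfl <;> simp only [QW] <;> omega
  constructor
  · rintro ⟨v, hv⟩
    refine ord_forth hw (val φ v) (fun m => ?_) fun q hq => ?_
    · simp only [val]; split_ifs <;> omega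
    obtain ⟨c, hc, hq⟩ := mem_cls.1 hq
    have b := hb c hc
    have s := hv _ (List.getElem_mem hc)
    have v0 : val φ v 1 = 14 := by simp [val]
    have v1 : ∀ x, x < 3 * φ.length → val φ v (x + 2) = if v x then 22 else 6 := fun x hx => by simp [val, hx]
    have v2 : val φ v (3 * φ.length + 2 + 2 * c) = if v φ[c].1 || v φ[c].2.1 then 18 else 2 := by
      have e1 : ¬ 3 * φ.length + 2 + 2 * c < 2 := by omega
      simp [val, e1, List.getElem?_eq_getElem hc]
    have v3 : val φ v (3 * φ.length + 3 + 2 * c) = if v φ[c].1 && v φ[c].2.1 then 26 else 10 := by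
      have e1 : ¬ 3 * φ.length + 3 + 2 * c < 2 := by omega
      have e2 : ¬ 3 * φ.length + 3 + 2 * c < 3 * φ.length + 2 := by omega
      have e3 : (3 * φ.length + 3 + 2 * c - (3 * φ.length + 2)) / 2 = c := by omega
      have e4 : ¬ (3 * φ.length + 3 + 2 * c - (3 * φ.length + 2)) % 2 = 0 := by omega
      simp only [val, e1, e2, e3, e4, if_false, List.getD_eq_getElem _ _ hc]
    simp only [cl, List.mem_cons, List.not_mem_nil, or_false] at hq
    rcases hq with rfl | rfl | rfl | rfl <;> simp only [v0, v1 _ b.1, v1 _ b.2.1, v1 _ b.2.2, v2, v3] <;>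
      revert s <;> cases v φ[c].1 <;> cases v φ[c].2.1 <;> cases v φ[c].2.2 <;> simp [nae]
  · intro hc
    obtain ⟨g, hg⟩ := ord_back (by omega) hw hc
    refine ⟨fun x => decide (g 1 < g (x + 2)), fun C hC => ?_⟩
    obtain ⟨c, hc, rfl⟩ := List.getElem_of_mem hC
    have k := fun q hq => hg q (mem_cls.2 ⟨c, hc, hq⟩)
    simp only [cl, List.forall_mem_cons, List.not_mem_nil, IsEmpty.forall_iff, implies_true, and_true] at k
    obtain ⟨k1, k2, k3, k4⟩ := k
    by_cases a1 : g 1 < g (φ[c].1 + 2) <;> by_cases a2 : g 1 < g (φ[c].2.1 + 2) <;>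
      by_cases a3 : g 1 < g (φ[c].2.2 + 2) <;> simp only [nae, a1, a2, a3, decide_true, decide_false] <;>
      first
        | rfl
        | (exfalso; rcases k3 with k3 | k3 <;> rcases k4 with k4 | k4 <;> linarith)
        | (exfalso; rcases k1 with k1 | k1 <;> rcases k2 with k2 | k2 <;> linarith)

end Pool.Agent.H.MP_7285af_lc
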