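import Pool.Agent.H.MP_7285af_lc.C

set_option autoImplicit false

namespace Pool.Agent.H.MP_7285af_lc
open Pool.Agent.Lib.CX

def arcs (l : List Vx) : List (Vx × Vx) := (l ×ˢ l).filter fun e => decide (arc e.1 e.2)

def gr (l : List Vx) : Gr := mkGr l (arcs l)
def rev (a : Gr) : Gr := (a.1, a.2.map fun e => (e.2, e.1))

theorem gr_arc (l : List Vx) (u v : Fin (gr l).n) :
    (gr l).arc u v ↔ arc (mkGrEquiv l (arcs l) u).1 (mkGrEquiv l (arcs l) v).1 := by
  refine (mkGr_arc l (arcs l) u v).trans ?_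
  have h1 := (mkGrEquiv l (arcs l) u).2
  have h2 := (mkGrEquiv l (arcs l) v).2
  generalize (mkGrEquiv l (arcs l) u).1 = x at h1 ⊢
  generalize (mkGrEquiv l (arcs l) v).1 = y at h2 ⊢
  have h1 : x ∈ l := h1
  have h2 : y ∈ l := h2
  simp [arcs, h1, h2]

theorem central_iff (l : List Vx) (hl : ∀ x ∈ l, arc x x) : Central l ↔ C3ai (gr l) := by
  set e := mkGrEquiv l (arcs l)
  constructor
  · rintro ⟨p, A, B, hm, h⟩
    refine ⟨fun i => A (e i).1, fun i => B (e i).1, fun i => p (e i).1, fun i => p (e i).1, ⟨fun v => ?_, fun x y => ?_⟩,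
      fun _ => rfl, fun v => by linarith [hm (e v).1]⟩
    · have := (h _ (e v).2 _ (e v).2).1 (hl _ (e v).2)
      exact ⟨this.1, this.2, this.1, this.2⟩
    · exact (gr_arc l x y).trans (h _ (e x).2 _ (e y).2)
  · rintro ⟨L, R, p, q, ⟨-, h⟩, h1, h2⟩
    classical
    refine ⟨fun x => if hx : x ∈ l then p (e.symm ⟨x, hx⟩) else 0, fun x => if hx : x ∈ l then L (e.symm ⟨x, hx⟩) else 0,
      fun x => if hx : x ∈ l then R (e.symm ⟨x, hx⟩) else 0, fun x => ?_, fun x hx y hy => ?_⟩
    · by_cases hx : x ∈ l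
      · simp only [hx, dif_pos]; linarith [h1 (e.symm ⟨x, hx⟩), h2 (e.symm ⟨x, hx⟩)]
      · simp [hx]
    · simp only [hx, hy, dif_pos]
      have := (gr_arc l (e.symm ⟨x, hx⟩) (e.symm ⟨y, hy⟩)).symm.trans (h _ _)
      rw [← h1] at this
      simpa [e] using this

theorem rev_arc (a : Gr) (u v : Fin a.n) : (rev a).arc u v ↔ a.arc v u := by
  simp only [Gr.arc, rev, List.mem_map, Prod.mk.injEq]
  exact ⟨fun ⟨e, h, h1, h2⟩ => by rw [← h1, ← h2]; exact h, fun h => ⟨_, h, rfl, rfl⟩⟩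

theorem rev_iff (a : Gr) : C3ai a ↔ C1ci (rev a) := by
  constructor
  · rintro ⟨L, R, p, q, ⟨h0, h⟩, h1, h2⟩
    have hU : ∀ v, R v - p v ≤ ∑ w, (R w - p w) := fun v =>
      Finset.single_le_sum (f := fun w => R w - p w) (fun w _ => by linarith [(h0 w).2.1]) (Finset.mem_univ v)
    generalize ∑ w, (R w - p w) = U at hU
    refine ⟨fun v => p v - U, fun v => p v + U, fun v => L v + U, fun v => R v - U, ⟨fun v => ?_, fun x y => ?_⟩,
      fun v w => by ring, fun v => by linarith [h1 v, h2 v]⟩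
    · have := h0 v
      have := hU v
      have := h1 v
      have := h2 v
      refine ⟨?_, ?_, ?_, ?_⟩ <;> simp only <;> linarith
    · refine (rev_arc a x y).trans ((h y x).trans ?_)
      simp only [← h1]
      constructor <;> rintro ⟨a, b⟩ <;> constructor <;> linarith
  · rintro ⟨L, R, p, q, ⟨h0, h⟩, h1, h2⟩
    refine ⟨fun v => p v - (R v - L v) / 2, fun v => q v + (R v - L v) / 2, fun v => (L v + R v) / 2,
      fun v => (L v + R v) / 2, ⟨fun v => ?_, fun x y => ?_⟩, fun _ => rfl, fun v => by linarith [h2 v]⟩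
    · have := h0 v
      refine ⟨?_, ?_, ?_, ?_⟩ <;> simp only <;> linarith
    · refine (rev_arc a y x).symm.trans ((h y x).trans ?_)
      have := h1 x y
      constructor <;> rintro ⟨a, b⟩ <;> constructor <;> simp only at * <;> linarith

theorem loops (φ : List (T3 ℕ)) (h : ∀ C ∈ φ, C.dist ∧ ∀ x ∈ C.vars, x < 3 * φ.length) : ∀ x ∈ VS φ, arc x x := by
  have hw : ∀ q ∈ cls φ, QW (5 * φ.length + 3) q := fun q hq => by
    obtain ⟨c, hc, hq⟩ := mem_cls.1 hq
    have : φ[c].1 < 3 * φ.length ∧ φ[c].2.1 < 3 * φ.length ∧ φ[c].2.2 < 3 * φ.length := by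
      simpa [T3.vars] using (h _ (List.getElem_mem hc)).2
    simp only [cl, List.mem_cons, List.not_mem_nil, or_false] at hq
    rcases hq with rfl | rfl | rfl | rfl <;> simp only [QW] <;> omega
  intro x hx
  rcases mem_vs.1 hx with ⟨s, k, a, b, rfl⟩ | ⟨s, k, a, b, rfl⟩ | ⟨g, hg, e⟩
  · simp [arc, lo, hi, key, vV]
  · simp [arc, lo, hi, key, vW]; omega
  · have := gads_wf hw g hg
    simp only [WF] at this
    rcases e with rfl | rfl | rfl | rfl <;> simp [arc, lo, hi, key] <;> omega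

@[fun_prop] theorem pt_key : PT key := by unfold key; fun_prop
@[fun_prop] theorem pt_lo : PT lo := by unfold lo; fun_prop
@[fun_prop] theorem pt_hi : PT hi := by unfold hi; fun_prop

theorem pt_arcs : PT arcs := by unfold arcs arc; fun_prop

theorem pt_gr : PT gr := PT.mkGr (by fun_prop) pt_arcs

theorem pt_vs : PT fun a : List Unit × List G8 => vs a.1.length a.2 := by unfold vs vV vW; fun_prop

theorem pt_gad : PT fun a : ℕ × ℕ × Q4 => gad a.1 a.2.1 a.2.2 := by unfold gad; fun_prop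

@[fun_prop] theorem pt_gad' {α : Type} [Enc α] {n t : α → ℕ} {q : α → Q4} (h1 : PT n) (h2 : PT t) (h3 : PT q) :
    PT fun a => gad (n a) (t a) (q a) := pt_gad.comp (g := fun a => (n a, t a, q a)) (by fun_prop)

theorem pt_gads : PT fun a : ℕ × List Q4 => gads a.1 a.2 := by unfold gads; fun_prop

theorem pt_cl : PT fun a : ℕ × ℕ × T3 ℕ => cl a.1 a.2.1 a.2.2 := by unfold cl; fun_prop

@[fun_prop] theorem pt_cl' {α : Type} [Enc α] {n t : α → ℕ} {q : α → T3 ℕ} (h1 : PT n) (h2 : PT t) (h3 : PT q) :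
    PT fun a => cl (n a) (t a) (q a) := pt_cl.comp (g := fun a => (n a, t a, q a)) (by fun_prop)

@[fun_prop] theorem pt_cls : PT cls := by unfold cls; fun_prop

theorem pt_VS : PT VS := by
  have h1 : PT fun φ : List (T3 ℕ) => gads (5 * φ.length + 3) (cls φ) :=
    pt_gads.comp (g := fun φ : List (T3 ℕ) => (5 * φ.length + 3, cls φ)) (by fun_prop)
  have h2 := pt_vs.comp (g := fun φ : List (T3 ℕ) =>
    (List.replicate (5 * φ.length + 3 + 2 * (cls φ).length) (), gads (5 * φ.length + 3) (cls φ))) (by fun_prop)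
  have e : VS = fun φ : List (T3 ℕ) => vs (List.replicate (5 * φ.length + 3 + 2 * (cls φ).length) ()).length
      (gads (5 * φ.length + 3) (cls φ)) := funext fun φ => by rw [List.length_replicate]; rfl
  rw [e]; exact h2

theorem pt_rev : PT rev := by unfold rev; fun_prop

theorem hard3 : NPHard C3ai :=
  NPHard.of_nae (fun φ => gr (VS φ)) (pt_gr.comp pt_VS) fun φ h => (nae_iff φ h).trans (central_iff _ (loops φ h))

theorem hard1 : NPHard C1ci := hard3.red ⟨rev, pt_rev, rev_iff⟩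

end Pool.Agent.H.MP_7285af_lc
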